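import Pool.Agent.Run7.h332.WP.Tail

/-!
# MP_ca5520_nt: a threshold for four positive cubes and one perturbed cube

Let `16/81 < δ ≤ 2/3` and `ε > 0`. There is a number `N`, depending only on `δ` and `ε`, such that the
following holds for every sequence of independent random integers `ξ n`, `ξ n` uniformly distributed on
`0, 1, ..., ⌊n ^ (3 δ)⌋`: with probability at least `1 - ε` every integer `m > N` is a sum of four cubes of
positive integers and one perturbed cube `e ^ 3 + ξ e`, `e ≥ 1`. Here `3 δ` may be any number above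
`16/27 = 0.5925...`. With `t ≥ 3` exact cubes instead of four, `δ > (2/3) ^ t` is enough.
-/

open MeasureTheory ProbabilityTheory Filter

universe u

namespace Pool.Agent.Results.MP_ca5520_nt.ThresholdInProbability

/-- **Main result.** -/
theorem result (t : ℕ) (ht : 3 ≤ t) (δ : ℝ) (hδ0 : (2 / 3 : ℝ) ^ t < δ) (hδ1 : δ ≤ 2 / 3)
    (ε : ℝ) (hε : 0 < ε) :
    ∃ N : ℕ, ∀ (Ω : Type u) [MeasurableSpace Ω] (P : Measure Ω) [IsProbabilityMeasure P]
      (ξ : ℕ → Ω → ℕ), (∀ n, Measurable (ξ n)) → iIndepFun ξ P →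
      (∀ n, P.map (ξ n) = uniformOn (Finset.range (⌊(n : ℝ) ^ (3 * δ)⌋₊ + 1) : Set ℕ)) →
      1 - ε ≤ P.real {ω | ∀ m, N < m → ∃ (a : Fin t → ℕ) (e : ℕ), (∀ i, 1 ≤ a i) ∧ 1 ≤ e ∧
          m = ∑ i, (a i) ^ 3 + (e ^ 3 + ξ e ω)} := by
  have hδpos : 0 < δ := lt_trans (by positivity) hδ0
  have hprob : ∀ n : ℕ, IsProbabilityMeasure
      (uniformOn (Finset.range (⌊(n : ℝ) ^ (3 * δ)⌋₊ + 1) : Set ℕ)) := fun n =>
    isProbabilityMeasure_uniformOn (Finset.finite_toSet _) ⟨0, by simp⟩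
  have key := Run7.h332.WP.tail
    (fun n => uniformOn (Finset.range (⌊(n : ℝ) ^ (3 * δ)⌋₊ + 1) : Set ℕ))
    (fun m w => ∃ (a : Fin t → ℕ) (e : ℕ), (∀ i, 1 ≤ a i) ∧ 1 ≤ e ∧
          m = ∑ i, (a i) ^ 3 + (e ^ 3 + w e)) ?_ ?_ ε hε
  · obtain ⟨N, hN⟩ := key
    refine ⟨N, fun Ω _ P _ ξ hm hind hlaw => le_trans (hN Ω P ξ hm hind hlaw) ?_⟩
    exact measureReal_mono fun ω hω m hm => hω m hm.le
  · intro m
    have h1 : {w : ℕ → ℕ | ∃ (a : Fin t → ℕ) (e : ℕ), (∀ i, 1 ≤ a i) ∧ 1 ≤ e ∧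
          m = ∑ i, (a i) ^ 3 + (e ^ 3 + w e)} = ⋃ (a : Fin t → ℕ), ⋃ (e : ℕ),
          (fun w : ℕ → ℕ => w e) ⁻¹' {x : ℕ | (∀ i, 1 ≤ a i) ∧ 1 ≤ e ∧
            m = ∑ i, (a i) ^ 3 + (e ^ 3 + x)} := by
      ext w
      simp
    rw [h1]
    exact MeasurableSet.iUnion fun a => MeasurableSet.iUnion fun e =>
      (measurable_pi_apply e) (MeasurableSet.of_discrete)
  · have hind : iIndepFun (fun (n : ℕ) (w : ℕ → ℕ) => w n) (Measure.infinitePi
        (fun n : ℕ => uniformOn (Finset.range (⌊(n : ℝ) ^ (3 * δ)⌋₊ + 1) : Set ℕ))) :=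
      iIndepFun_infinitePi (X := fun _ x => x) fun _ => measurable_id
    have hd : ∀ n j : ℕ, 1 ≤ n → (j : ℝ) ≤ (n : ℝ) ^ (δ * (3 : ℕ)) →
        (1 / 2) / (n : ℝ) ^ (δ * (3 : ℕ)) ≤ (Measure.infinitePi
        (fun n : ℕ => uniformOn (Finset.range (⌊(n : ℝ) ^ (3 * δ)⌋₊ + 1) : Set ℕ))).real
          {w : ℕ → ℕ | w n = j} := by
      intro n j hn hj
      have h : δ * ((3 : ℕ) : ℝ) = 3 * δ := by push_cast; ring
      rw [h] at hj ⊢
      have h2 := Run7.h332.WP.unif (3 * δ) (by positivity) n j hn hj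
      refine le_trans h2 (le_of_eq ?_)
      have h3 := Measure.infinitePi_map_eval
        (fun n : ℕ => uniformOn (Finset.range (⌊(n : ℝ) ^ (3 * δ)⌋₊ + 1) : Set ℕ)) n
      have h4 : {w : ℕ → ℕ | w n = j} = (fun w : ℕ → ℕ => w n) ⁻¹' {j} := rfl
      rw [h4, measureReal_def, measureReal_def,
        ← Measure.map_apply (measurable_pi_apply n) (MeasurableSet.singleton j)]
      exact congrArg ENNReal.toReal (by rw [h3])
    have h23 : (1 - 1 / ((3 : ℕ) : ℝ)) = 2 / 3 := by norm_num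
    have hpos := Run7.h332.WP.positive 3 (by norm_num) δ hδpos (by norm_num; linarith)
      (1 / 2) (by norm_num) (fun (n : ℕ) (w : ℕ → ℕ) => w n) (fun n => measurable_pi_apply n)
      hind hd
    rw [h23] at hpos
    filter_upwards [hpos] with w hw
    have h3 : (3 : ℝ) * (2 / 3 : ℝ) ^ t ≤ 3 * (2 / 3 : ℝ) ^ 3 :=
      mul_le_mul_of_nonneg_left (pow_le_pow_of_le_one (by norm_num) (by norm_num) ht) (by norm_num)
    have h4 : (3 : ℝ) * (2 / 3 : ℝ) ^ 3 < 1 := by norm_num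
    obtain ⟨N₀, h⟩ := hw t 1 hδ0 (by push_cast; linarith)
    refine ⟨N₀, fun m hmN => ?_⟩
    obtain ⟨a, b, ha, hb, hab⟩ := h m hmN
    refine ⟨a, b 0, ha, hb 0, ?_⟩
    rw [hab, Fin.sum_univ_one]

end Pool.Agent.Results.MP_ca5520_nt.ThresholdInProbability
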